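import Mathlib

/-!
# Symbolic matrices: the kernel over the field of rational functions and its rational hull

Auxiliary facts on pencils `A₀ + ∑ xᵢ Aᵢ` of symmetric matrices (Edmonds' problem).
-/

set_option autoImplicit false
set_option linter.unusedSectionVars false

namespace Pool.Agent.V7L.Ed

open MvPolynomial Module Matrix

section Ext

variable {F L : Type} [Field F] [Field L] [Algebra F L] {n : ℕ}

/-- Entrywise extension of scalars of a vector. -/
def emb (L : Type) [Field L] [Algebra F L] (u : Fin n → F) : Fin n → L := fun a => algebraMap F L (u a)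

theorem linInd_map {d : ℕ} {w : Fin d → Fin n → F} (hw : LinearIndependent F w) :
    LinearIndependent L fun j => emb L (w j) := by
  classical
  let M : Matrix (Fin n) (Fin d) F := Matrix.of fun a j => w j a
  have hM : Function.Injective M.mulVec := by
    rw [Matrix.mulVec_injective_iff]
    exact hw
  obtain ⟨G, hG⟩ := LinearMap.exists_leftInverse_of_injective M.mulVecLin
    (LinearMap.ker_eq_bot.2 hM)
  have h1 : LinearMap.toMatrix' G * M = 1 := by
    have h2 : LinearMap.toMatrix' (G ∘ₗ M.mulVecLin) = 1 := by rw [hG]; exact LinearMap.toMatrix'_id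
    rw [LinearMap.toMatrix'_comp] at h2
    have h3 : LinearMap.toMatrix' M.mulVecLin = M := LinearMap.toMatrix'_toLin' M
    rwa [h3] at h2
  have h4 : (LinearMap.toMatrix' G).map (algebraMap F L) * M.map (algebraMap F L) = 1 := by
    rw [← Matrix.map_mul, h1]
    exact Matrix.map_one _ (map_zero _) (map_one _)
  have h5 : Function.Injective (M.map (algebraMap F L)).mulVec := by
    intro x y hxy
    have := congrArg ((LinearMap.toMatrix' G).map (algebraMap F L)).mulVec hxy
    simpa [Matrix.mulVec_mulVec, h4] using this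
  rw [Matrix.mulVec_injective_iff] at h5
  exact h5

/-- Extension of scalars of a subspace. -/
def ext (L : Type) [Field L] [Algebra F L] (U : Submodule F (Fin n → F)) : Submodule L (Fin n → L) :=
  Submodule.span L (emb L '' (U : Set (Fin n → F)))

theorem emb_mem_ext {U : Submodule F (Fin n → F)} {u : Fin n → F} (hu : u ∈ U) :
    emb L u ∈ ext L U := Submodule.subset_span ⟨u, hu, rfl⟩

theorem emb_add (u v : Fin n → F) : emb L (u + v) = emb L u + emb L v := by
  funext a; simp [emb]

theorem emb_smul (c : F) (u : Fin n → F) : emb L (c • u) = algebraMap F L c • emb L u := by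
  funext a; simp [emb]

theorem finrank_ext (U : Submodule F (Fin n → F)) : finrank L (ext L U) = finrank F U := by
  classical
  let b := finBasis F U
  have hb : LinearIndependent F fun j => (b j : Fin n → F) :=
    b.linearIndependent.map' U.subtype (Submodule.ker_subtype U)
  have h1 := linInd_map (L := L) hb
  have h2 : ext L U = Submodule.span L (Set.range fun j => emb L (b j : Fin n → F)) := by
    apply le_antisymm
    · refine Submodule.span_le.2 ?_
      rintro _ ⟨u, hu, rfl⟩
      have h3 := b.sum_repr ⟨u, hu⟩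
      have h4 : u = ∑ j, b.repr ⟨u, hu⟩ j • (b j : Fin n → F) := by
        have h7 : ((∑ j, b.repr ⟨u, hu⟩ j • b j : U) : Fin n → F) = u := congrArg Subtype.val h3
        refine h7.symm.trans ?_
        rw [Submodule.coe_sum]
        rfl
      have h5 : emb L u = ∑ j, algebraMap F L (b.repr ⟨u, hu⟩ j) • emb L (b j : Fin n → F) := by
        funext a
        have h6 := congrFun h4 a
        simp only [emb, Finset.sum_apply, Pi.smul_apply, smul_eq_mul] at h6 ⊢
        rw [h6, map_sum]
        simp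
      rw [h5]
      exact Submodule.sum_mem _ fun j _ => Submodule.smul_mem _ _ (Submodule.subset_span ⟨j, rfl⟩)
    · refine Submodule.span_le.2 ?_
      rintro _ ⟨j, rfl⟩
      exact emb_mem_ext (b j).2
  rw [h2, finrank_span_eq_card h1, Fintype.card_fin]

end Ext

section Pencil

variable {F : Type} [Field F] {n : ℕ} {ι : Type} [Fintype ι]

/-- The symbolic matrix `A₀ + ∑ xᵢ Aᵢ` with entries in `F[xᵢ : i ∈ ι]`. -/
noncomputable def pencil (A₀ : Matrix (Fin n) (Fin n) F) (A : ι → Matrix (Fin n) (Fin n) F) :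
    Matrix (Fin n) (Fin n) (MvPolynomial ι F) :=
  A₀.map C + ∑ i, (X i : MvPolynomial ι F) • (A i).map C

/-- The field `F(xᵢ : i ∈ ι)` of rational functions. -/
abbrev RatFun (ι F : Type) [Field F] : Type := FractionRing (MvPolynomial ι F)

/-- The pencil as a matrix over the field of rational functions. -/
noncomputable def pencilL (A₀ : Matrix (Fin n) (Fin n) F) (A : ι → Matrix (Fin n) (Fin n) F) :
    Matrix (Fin n) (Fin n) (RatFun ι F) :=
  (pencil A₀ A).map (algebraMap (MvPolynomial ι F) (RatFun ι F))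

/-- A polynomial vector as a vector of rational functions. -/
noncomputable def toL (k : Fin n → MvPolynomial ι F) : Fin n → RatFun ι F :=
  fun a => algebraMap (MvPolynomial ι F) (RatFun ι F) (k a)

theorem toL_C (u : Fin n → F) : toL (ι := ι) (fun a => C (u a)) = emb (RatFun ι F) u := by
  funext a
  simp only [toL, emb]
  rw [IsScalarTower.algebraMap_apply F (MvPolynomial ι F) (RatFun ι F)]
  rfl

theorem toL_mulVec (P : Matrix (Fin n) (Fin n) (MvPolynomial ι F)) (k : Fin n → MvPolynomial ι F) :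
    toL (P *ᵥ k) = P.map (algebraMap (MvPolynomial ι F) (RatFun ι F)) *ᵥ toL k := by
  funext a
  simp [toL, Matrix.mulVec, dotProduct]

theorem toL_inj {k k' : Fin n → MvPolynomial ι F} (h : toL k = toL k') : k = k' := by
  funext a
  exact IsFractionRing.injective (MvPolynomial ι F) (RatFun ι F) (congrFun h a)

theorem pencilL_mulVec_emb (A₀ : Matrix (Fin n) (Fin n) F) (A : ι → Matrix (Fin n) (Fin n) F)
    (u : Fin n → F) :
    pencilL A₀ A *ᵥ emb (RatFun ι F) u = emb (RatFun ι F) (A₀ *ᵥ u) +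
      ∑ i, algebraMap (MvPolynomial ι F) (RatFun ι F) (X i) • emb (RatFun ι F) (A i *ᵥ u) := by
  rw [← toL_C, pencilL, ← toL_mulVec, ← toL_C]
  simp only [← toL_C]
  funext a
  simp only [toL, pencil, Matrix.add_mulVec, Matrix.sum_mulVec, Matrix.smul_mulVec,
    Pi.add_apply, Finset.sum_apply, Pi.smul_apply, smul_eq_mul, map_add, map_sum, map_mul]
  congr 1
  · congr 1
    simp [Matrix.mulVec, dotProduct]
  · refine Finset.sum_congr rfl fun i _ => ?_
    congr 1
    congr 1
    simp [Matrix.mulVec, dotProduct]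

/-- The easy inequality: `rank ≤ n - dim V + dim Y` when all matrices map `V` into `Y`. -/
theorem rank_le (A₀ : Matrix (Fin n) (Fin n) F) (A : ι → Matrix (Fin n) (Fin n) F)
    (V Y : Submodule F (Fin n → F)) (h0 : ∀ u ∈ V, A₀ *ᵥ u ∈ Y) (hA : ∀ i, ∀ u ∈ V, A i *ᵥ u ∈ Y) :
    (pencilL A₀ A).rank + finrank F V ≤ n + finrank F Y := by
  classical
  have h1 : (ext (RatFun ι F) V).map (pencilL A₀ A).mulVecLin ≤ ext (RatFun ι F) Y := by
    rw [ext, Submodule.map_span]
    refine Submodule.span_le.2 ?_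
    rintro _ ⟨_, ⟨u, hu, rfl⟩, rfl⟩
    rw [Matrix.mulVecLin_apply, pencilL_mulVec_emb]
    refine Submodule.add_mem _ (emb_mem_ext (h0 u hu)) (Submodule.sum_mem _ fun i _ => ?_)
    exact Submodule.smul_mem _ _ (emb_mem_ext (hA i u hu))
  have h2 := Submodule.finrank_mono h1
  rw [finrank_ext] at h2
  have h3 := LinearMap.finrank_range_add_finrank_ker (pencilL A₀ A).mulVecLin
  have h4 := LinearMap.finrank_range_add_finrank_ker
    ((pencilL A₀ A).mulVecLin.domRestrict (ext (RatFun ι F) V))
  rw [LinearMap.range_domRestrict, finrank_ext] at h4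
  have h5 : finrank (RatFun ι F) (LinearMap.ker ((pencilL A₀ A).mulVecLin.domRestrict
      (ext (RatFun ι F) V))) ≤ finrank (RatFun ι F) (LinearMap.ker (pencilL A₀ A).mulVecLin) := by
    rw [LinearMap.ker_domRestrict]
    rw [← Submodule.finrank_map_subtype_eq]
    exact Submodule.finrank_mono (by
      rintro _ ⟨x, hx, rfl⟩
      exact hx)
  have h6 : finrank (RatFun ι F) (Fin n → RatFun ι F) = n := by simp
  have h7 : (pencilL A₀ A).rank = finrank (RatFun ι F) (LinearMap.range (pencilL A₀ A).mulVecLin) :=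
    rfl
  rw [h6] at h3
  omega

/-! ### The kernel of the pencil -/



/-- The constant linear relations satisfied by all polynomial vectors in the kernel. -/
def rel (A₀ : Matrix (Fin n) (Fin n) F) (A : ι → Matrix (Fin n) (Fin n) F) :
    Submodule F (Fin n → F) where
  carrier := {φ | ∀ k : Fin n → MvPolynomial ι F, pencil A₀ A *ᵥ k = 0 → ∑ a, C (φ a) * k a = 0}
  add_mem' := by
    intro φ ψ hφ hψ k hk
    have : ∑ a, C ((φ + ψ) a) * k a = ∑ a, C (φ a) * k a + ∑ a, C (ψ a) * k a := by
      rw [← Finset.sum_add_distrib]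
      exact Finset.sum_congr rfl fun a _ => by rw [Pi.add_apply, map_add]; ring
    rw [this, hφ k hk, hψ k hk, add_zero]
  zero_mem' := by
    intro k _
    simp
  smul_mem' := by
    intro c φ hφ k hk
    have : ∑ a, C ((c • φ) a) * k a = C c * ∑ a, C (φ a) * k a := by
      rw [Finset.mul_sum]
      exact Finset.sum_congr rfl fun a _ => by rw [Pi.smul_apply, smul_eq_mul, map_mul]; ring
    rw [this, hφ k hk, mul_zero]

/-- The smallest subspace of `Fⁿ` whose extension of scalars contains the kernel. -/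
def hull (A₀ : Matrix (Fin n) (Fin n) F) (A : ι → Matrix (Fin n) (Fin n) F) :
    Submodule F (Fin n → F) where
  carrier := {u | ∀ φ ∈ rel A₀ A, φ ⬝ᵥ u = 0}
  add_mem' := by
    intro u v hu hv φ hφ
    rw [dotProduct_add, hu φ hφ, hv φ hφ, add_zero]
  zero_mem' := by
    intro φ _
    simp
  smul_mem' := by
    intro c u hu φ hφ
    rw [dotProduct_smul, hu φ hφ, smul_zero]

theorem mem_ext_hull (A₀ : Matrix (Fin n) (Fin n) F) (A : ι → Matrix (Fin n) (Fin n) F)
    (k : Fin n → MvPolynomial ι F) (hk : ∀ φ ∈ rel A₀ A, ∑ a, C (φ a) * k a = 0) :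
    toL k ∈ ext (RatFun ι F) (hull A₀ A) := by
  classical
  let s : Finset (ι →₀ ℕ) := Finset.univ.biUnion fun a => (k a).support
  have h1 : toL k = ∑ α ∈ s, algebraMap (MvPolynomial ι F) (RatFun ι F) (monomial α 1) •
      emb (RatFun ι F) (fun a => coeff α (k a)) := by
    funext a
    have h2 : k a = ∑ α ∈ s, monomial α 1 * C (coeff α (k a)) := by
      conv_lhs => rw [(k a).as_sum]
      have h3 : (k a).support ⊆ s := Finset.subset_biUnion_of_mem (fun a => (k a).support)
        (Finset.mem_univ a)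
      rw [Finset.sum_subset h3 (fun α _ hα => by
        rw [notMem_support_iff.1 hα, monomial_zero])]
      refine Finset.sum_congr rfl fun α _ => ?_
      rw [mul_comm, C_mul_monomial, mul_one]
    rw [Finset.sum_apply]
    simp only [toL, Pi.smul_apply, emb, smul_eq_mul]
    conv_lhs => rw [h2]
    rw [map_sum]
    refine Finset.sum_congr rfl fun α _ => ?_
    rw [map_mul, IsScalarTower.algebraMap_apply F (MvPolynomial ι F) (RatFun ι F)]
    rfl
  rw [h1]
  refine Submodule.sum_mem _ fun α _ => Submodule.smul_mem _ _ (emb_mem_ext ?_)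
  intro φ hφ
  have h4 := congrArg (coeff α) (hk φ hφ)
  rw [coeff_sum, coeff_zero] at h4
  rw [dotProduct, ← h4]
  exact Finset.sum_congr rfl fun a _ => (coeff_C_mul α (φ a) (k a)).symm

theorem ker_le (A₀ : Matrix (Fin n) (Fin n) F) (A : ι → Matrix (Fin n) (Fin n) F) :
    LinearMap.ker (pencilL A₀ A).mulVecLin ≤ ext (RatFun ι F) (hull A₀ A) := by
  classical
  intro v hv
  rw [LinearMap.mem_ker, Matrix.mulVecLin_apply] at hv
  obtain ⟨d, hd⟩ := IsLocalization.exist_integer_multiples_of_finite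
    (nonZeroDivisors (MvPolynomial ι F)) v
  choose k hk using hd
  have hk' : toL k = algebraMap (MvPolynomial ι F) (RatFun ι F) (d : MvPolynomial ι F) • v := by
    funext a
    rw [toL, hk a, Pi.smul_apply, Algebra.smul_def, smul_eq_mul]
  have hne : algebraMap (MvPolynomial ι F) (RatFun ι F) (d : MvPolynomial ι F) ≠ 0 :=
    IsLocalization.to_map_ne_zero_of_mem_nonZeroDivisors _ le_rfl d.2
  have h1 : pencil A₀ A *ᵥ k = 0 := by
    apply toL_inj (ι := ι)
    rw [toL_mulVec, hk', Matrix.mulVec_smul]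
    change _ • (pencilL A₀ A *ᵥ v) = _
    rw [hv, smul_zero]
    funext a
    simp [toL]
  have h2 : toL k ∈ ext (RatFun ι F) (hull A₀ A) := mem_ext_hull A₀ A k fun φ hφ => hφ k h1
  rw [hk'] at h2
  have h3 := Submodule.smul_mem _ (algebraMap (MvPolynomial ι F) (RatFun ι F)
    (d : MvPolynomial ι F))⁻¹ h2
  rwa [smul_smul, inv_mul_cancel₀ hne, one_smul] at h3

theorem pderiv_pencil (A₀ : Matrix (Fin n) (Fin n) F) (A : ι → Matrix (Fin n) (Fin n) F)
    (l : ι) (a b : Fin n) : pderiv l (pencil A₀ A a b) = C (A l a b) := by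
  classical
  simp only [pencil, Matrix.add_apply, Matrix.sum_apply, Matrix.smul_apply, Matrix.map_apply,
    smul_eq_mul, map_add, map_sum, pderiv_C, zero_add, pderiv_mul, mul_zero, add_zero, pderiv_X]
  rw [Finset.sum_eq_single l]
  · simp
  · intro i _ hi
    simp [hi.symm]
  · simp

theorem mulVec_pderiv (A₀ : Matrix (Fin n) (Fin n) F) (A : ι → Matrix (Fin n) (Fin n) F)
    (l : ι) (k : Fin n → MvPolynomial ι F) (hk : pencil A₀ A *ᵥ k = 0) :
    pencil A₀ A *ᵥ (fun a => pderiv l (k a)) = -((A l).map C *ᵥ k) := by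
  funext a
  have h1 := congrArg (pderiv l) (congrFun hk a)
  simp only [Matrix.mulVec, dotProduct, map_sum, pderiv_mul, pderiv_pencil, Finset.sum_add_distrib,
    Pi.zero_apply, map_zero] at h1
  simp only [Matrix.mulVec, dotProduct, Pi.neg_apply, Matrix.map_apply]
  exact eq_neg_of_add_eq_zero_right h1

/-- The image under the pencil of the extension of scalars of the hull. -/
noncomputable def img (A₀ : Matrix (Fin n) (Fin n) F) (A : ι → Matrix (Fin n) (Fin n) F) :
    Submodule (RatFun ι F) (Fin n → RatFun ι F) :=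
  (ext (RatFun ι F) (hull A₀ A)).map (pencilL A₀ A).mulVecLin

theorem coeff_mem_img (A₀ : Matrix (Fin n) (Fin n) F) (A : ι → Matrix (Fin n) (Fin n) F)
    (l : ι) (k : Fin n → MvPolynomial ι F) (hk : pencil A₀ A *ᵥ k = 0) :
    toL ((A l).map C *ᵥ k) ∈ img A₀ A := by
  have h1 : toL (fun a => pderiv l (k a)) ∈ ext (RatFun ι F) (hull A₀ A) := by
    refine mem_ext_hull A₀ A _ fun φ hφ => ?_
    have h2 := congrArg (pderiv l) (hφ k hk)
    rw [map_sum, map_zero] at h2
    rw [← h2]
    exact Finset.sum_congr rfl fun a _ => (pderiv_C_mul).symm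
  have h3 : toL ((A l).map C *ᵥ k) = -(pencilL A₀ A).mulVecLin (toL (fun a => pderiv l (k a))) := by
    rw [Matrix.mulVecLin_apply, pencilL, ← toL_mulVec, mulVec_pderiv A₀ A l k hk]
    funext a
    simp [toL]
  rw [h3]
  exact Submodule.neg_mem _ (Submodule.mem_map_of_mem h1)

theorem isotropic (A₀ : Matrix (Fin n) (Fin n) F) (A : ι → Matrix (Fin n) (Fin n) F)
    (h₀ : A₀.IsSymm) (hs : ∀ i, (A i).IsSymm) (l : ι) (k k' : Fin n → MvPolynomial ι F)
    (hk : pencil A₀ A *ᵥ k = 0) (hk' : pencil A₀ A *ᵥ k' = 0) :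
    k ⬝ᵥ ((A l).map C *ᵥ k') = 0 := by
  have h1 : (pencil A₀ A)ᵀ = pencil A₀ A := by
    rw [pencil, Matrix.transpose_add, Matrix.transpose_sum]
    congr 1
    · rw [← Matrix.transpose_map, h₀]
    · refine Finset.sum_congr rfl fun i _ => ?_
      rw [Matrix.transpose_smul, ← Matrix.transpose_map, hs i]
  have h2 : (A l).map C *ᵥ k' = -(pencil A₀ A *ᵥ (fun a => pderiv l (k' a))) := by
    rw [mulVec_pderiv A₀ A l k' hk', neg_neg]
  rw [h2, dotProduct_neg, dotProduct_mulVec, ← mulVec_transpose, h1, hk, zero_dotProduct, neg_zero]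

theorem eval_mulVec (B : Matrix (Fin n) (Fin n) F) (k : Fin n → MvPolynomial ι F) (c : ι → F)
    (a : Fin n) : eval c ((B.map C *ᵥ k) a) = (B *ᵥ fun b => eval c (k b)) a := by
  simp [Matrix.mulVec, dotProduct]

theorem eval_dotProduct (φ : Fin n → F) (k : Fin n → MvPolynomial ι F) (c : ι → F) :
    eval c (∑ a, C (φ a) * k a) = φ ⬝ᵥ fun a => eval c (k a) := by
  simp [dotProduct]

theorem symm_dot {B : Matrix (Fin n) (Fin n) F} (hB : B.IsSymm) (u v : Fin n → F) :
    u ⬝ᵥ (B *ᵥ v) = v ⬝ᵥ (B *ᵥ u) := by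
  rw [dotProduct_mulVec, ← mulVec_transpose, hB, dotProduct_comm]

theorem dot_mulVec_symm {B : Matrix (Fin n) (Fin n) F} (hB : B.IsSymm) (u v : Fin n → F) :
    (B *ᵥ u) ⬝ᵥ v = u ⬝ᵥ (B *ᵥ v) := by
  rw [dotProduct_comm, symm_dot hB]

/-- The vectors `u` with `Aᵢ u ∈ F · Aᵢ vᵢ` for all `i`. -/
def isoSpace (A : ι → Matrix (Fin n) (Fin n) F) (v : ι → Fin n → F) : Submodule F (Fin n → F) :=
  ⨅ i, (Submodule.span F {A i *ᵥ v i}).comap (A i).mulVecLin

theorem mem_isoSpace (A : ι → Matrix (Fin n) (Fin n) F) (v : ι → Fin n → F) (u : Fin n → F) :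
    u ∈ isoSpace A v ↔ ∀ i, A i *ᵥ u ∈ Submodule.span F {A i *ᵥ v i} := by
  simp [isoSpace, Submodule.mem_iInf]

/-- The space `A₀ V + ∑ F · Aᵢ vᵢ`, where `V = isoSpace A v`. -/
def target (A₀ : Matrix (Fin n) (Fin n) F) (A : ι → Matrix (Fin n) (Fin n) F)
    (v : ι → Fin n → F) : Submodule F (Fin n → F) :=
  (isoSpace A v).map A₀.mulVecLin ⊔ Submodule.span F (Set.range fun i => A i *ᵥ v i)

theorem le_target (A₀ : Matrix (Fin n) (Fin n) F) (A : ι → Matrix (Fin n) (Fin n) F)
    (v : ι → Fin n → F) : (∀ u ∈ isoSpace A v, A₀ *ᵥ u ∈ target A₀ A v) ∧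
      ∀ i, ∀ u ∈ isoSpace A v, A i *ᵥ u ∈ target A₀ A v := by
  refine ⟨fun u hu => Submodule.mem_sup_left ⟨u, hu, rfl⟩, fun i u hu => Submodule.mem_sup_right ?_⟩
  exact Submodule.span_mono (Set.singleton_subset_iff.2 (Set.mem_range_self i))
    ((mem_isoSpace A v u).1 hu i)

theorem exists_eq (A₀ : Matrix (Fin n) (Fin n) F) (A : ι → Matrix (Fin n) (Fin n) F)
    (hdir : ∀ l, ∃ v : Fin n → F, v ⬝ᵥ (A l *ᵥ v) = 0 ∧
      emb (RatFun ι F) (A l *ᵥ v) ∈ img A₀ A ∧
      ∀ u ∈ hull A₀ A, A l *ᵥ u ∈ Submodule.span F {A l *ᵥ v}) :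
    ∃ v : ι → Fin n → F, (∀ i, v i ⬝ᵥ (A i *ᵥ v i) = 0) ∧
      (pencilL A₀ A).rank + finrank F (isoSpace A v) = n + finrank F (target A₀ A v) := by
  classical
  choose v hv1 hv2 hv3 using hdir
  refine ⟨v, hv1, le_antisymm (rank_le A₀ A _ _ (le_target A₀ A v).1 (le_target A₀ A v).2) ?_⟩
  set U := hull A₀ A with hU
  set V := isoSpace A v with hV
  set T := Submodule.span F (Set.range fun i => A i *ᵥ v i) with hT
  have hUV : U ≤ V := fun u hu => (mem_isoSpace A v u).2 fun i => hv3 i u hu
  -- the image of the pencil contains `A₀ U + T`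
  have himg : ext (RatFun ι F) (U.map A₀.mulVecLin ⊔ T) ≤ img A₀ A := by
    have hsub : ∀ y : Fin n → F, y ∈ (U.map A₀.mulVecLin ⊔ T) → emb (RatFun ι F) y ∈ img A₀ A := by
      have hT' : ∀ y ∈ T, emb (RatFun ι F) y ∈ img A₀ A := by
        intro y hy
        induction hy using Submodule.span_induction with
        | mem y hy =>
          obtain ⟨i, rfl⟩ := hy
          exact hv2 i
        | zero =>
          have : emb (RatFun ι F) (0 : Fin n → F) = 0 := by funext a; simp [emb]
          rw [this]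
          exact Submodule.zero_mem _
        | add x y _ _ hx hy =>
          rw [emb_add]
          exact Submodule.add_mem _ hx hy
        | smul c x _ hx =>
          rw [emb_smul]
          exact Submodule.smul_mem _ _ hx
      intro y hy
      obtain ⟨y₁, ⟨u, hu, rfl⟩, y₂, hy₂, rfl⟩ := Submodule.mem_sup.1 hy
      rw [emb_add]
      refine Submodule.add_mem _ ?_ (hT' _ hy₂)
      have h1 : emb (RatFun ι F) (A₀.mulVecLin u) = (pencilL A₀ A).mulVecLin (emb (RatFun ι F) u) -
          ∑ i, algebraMap (MvPolynomial ι F) (RatFun ι F) (X i) • emb (RatFun ι F) (A i *ᵥ u) := by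
        rw [Matrix.mulVecLin_apply, Matrix.mulVecLin_apply, pencilL_mulVec_emb, add_sub_cancel_right]
      rw [h1]
      refine Submodule.sub_mem _ (Submodule.mem_map_of_mem (emb_mem_ext hu))
        (Submodule.sum_mem _ fun i _ => Submodule.smul_mem _ _ (hT' _ ?_))
      exact Submodule.span_mono (Set.singleton_subset_iff.2 (Set.mem_range_self i)) (hv3 i u hu)
    refine Submodule.span_le.2 ?_
    rintro _ ⟨y, hy, rfl⟩
    exact hsub y hy
  have h1 : finrank F (U.map A₀.mulVecLin ⊔ T : Submodule F (Fin n → F)) ≤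
      finrank (RatFun ι F) (img A₀ A) := by
    rw [← finrank_ext (L := RatFun ι F) (U.map A₀.mulVecLin ⊔ T)]
    exact Submodule.finrank_mono himg
  have h2 : finrank (RatFun ι F) (img A₀ A) + n ≤ finrank F U + (pencilL A₀ A).rank := by
    have h3 := LinearMap.finrank_range_add_finrank_ker (pencilL A₀ A).mulVecLin
    have h4 := LinearMap.finrank_range_add_finrank_ker
      ((pencilL A₀ A).mulVecLin.domRestrict (ext (RatFun ι F) U))
    rw [LinearMap.range_domRestrict, finrank_ext] at h4
    have h5 : finrank (RatFun ι F) (LinearMap.ker (pencilL A₀ A).mulVecLin) ≤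
        finrank (RatFun ι F) (LinearMap.ker ((pencilL A₀ A).mulVecLin.domRestrict
          (ext (RatFun ι F) U))) := by
      rw [LinearMap.ker_domRestrict, ← Submodule.finrank_map_subtype_eq]
      refine Submodule.finrank_mono fun x hx => ?_
      exact ⟨⟨x, ker_le A₀ A hx⟩, hx, rfl⟩
    have h6 : finrank (RatFun ι F) (Fin n → RatFun ι F) = n := by simp
    have h7 : (pencilL A₀ A).rank =
        finrank (RatFun ι F) (LinearMap.range (pencilL A₀ A).mulVecLin) := rfl
    have h8 : finrank (RatFun ι F) (img A₀ A) =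
        finrank (RatFun ι F) ((ext (RatFun ι F) U).map (pencilL A₀ A).mulVecLin) := rfl
    rw [h6] at h3
    omega
  -- from `U` to `V`
  have h9 : finrank F (target A₀ A v) + finrank F U ≤
      finrank F (U.map A₀.mulVecLin ⊔ T : Submodule F (Fin n → F)) + finrank F V := by
    obtain ⟨W', hW'⟩ := Submodule.exists_isCompl U
    have hV2 : V = U ⊔ (W' ⊓ V) := by
      rw [← sup_inf_assoc_of_le W' hUV, hW'.sup_eq_top, top_inf_eq]
    have h10 : target A₀ A v = (U.map A₀.mulVecLin ⊔ T) ⊔ (W' ⊓ V).map A₀.mulVecLin := by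
      have : target A₀ A v = V.map A₀.mulVecLin ⊔ T := rfl
      rw [this]
      conv_lhs => rw [hV2]
      rw [Submodule.map_sup]
      ac_rfl
    have h11 : finrank F (target A₀ A v) ≤
        finrank F (U.map A₀.mulVecLin ⊔ T : Submodule F (Fin n → F)) +
          finrank F (W' ⊓ V : Submodule F (Fin n → F)) := by
      rw [h10]
      refine (Submodule.finrank_add_le_finrank_add_finrank _ _).trans ?_
      exact Nat.add_le_add_left (Submodule.finrank_map_le _ _) _
    have h12 : finrank F V = finrank F U + finrank F (W' ⊓ V : Submodule F (Fin n → F)) := by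
      have h13 := Submodule.finrank_sup_add_finrank_inf_eq U (W' ⊓ V)
      rw [← hV2] at h13
      have h14 : U ⊓ (W' ⊓ V) = ⊥ := by
        rw [← inf_assoc, hW'.inf_eq_bot, bot_inf_eq]
      rw [h14, finrank_bot] at h13
      omega
    omega
  omega

end Pencil

end Pool.Agent.V7L.Ed
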