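import Pool.Agent.V7L.Ed.Witt

/-!
# Matrices of Witt index at most one, and a pencil of matrices of rank four
-/

set_option autoImplicit false
set_option linter.unusedSectionVars false

namespace Pool.Agent.V7L.Ed

open MvPolynomial Module Matrix

section Rank

variable {F : Type} [Field F] {n : ℕ}

theorem wittLeOne_of_rank (B : Matrix (Fin n) (Fin n) F) (hB : B.IsSymm) (hr : B.rank ≤ 3) :
    WittLeOne B := by
  classical
  intro u v hu hv huv hind
  -- the orthogonal space of the two images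
  set g : Fin 2 → Fin n → F := ![B *ᵥ u, B *ᵥ v] with hg
  set N : Submodule F (Fin n → F) := LinearMap.ker (Matrix.of g).mulVecLin with hN
  have hmem : ∀ w, w ∈ N ↔ (B *ᵥ u) ⬝ᵥ w = 0 ∧ (B *ᵥ v) ⬝ᵥ w = 0 := by
    intro w
    rw [hN, LinearMap.mem_ker, Matrix.mulVecLin_apply]
    constructor
    · intro h
      exact ⟨congrFun h 0, congrFun h 1⟩
    · rintro ⟨h1, h2⟩
      funext i
      fin_cases i
      · exact h1
      · exact h2
  have hdimN : finrank F N + 2 = n := by
    have h1 := LinearMap.finrank_range_add_finrank_ker (Matrix.of g).mulVecLin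
    have h3 : finrank F (LinearMap.range (Matrix.of g).mulVecLin) = 2 := by
      have h4 := Matrix.rank_eq_finrank_span_row (Matrix.of g)
      have h5 : finrank F (Submodule.span F (Set.range g)) = 2 := by
        rw [finrank_span_eq_card hind, Fintype.card_fin]
      exact h4.trans h5
    have h6 : finrank F (Fin n → F) = n := by simp
    rw [h3, h6] at h1
    rw [← hN] at h1
    omega
  have hle : LinearMap.ker B.mulVecLin ≤ N := by
    intro w hw
    rw [LinearMap.mem_ker, Matrix.mulVecLin_apply] at hw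
    rw [hmem, dot_mulVec_symm hB, dot_mulVec_symm hB, hw]
    simp
  have h1 := LinearMap.finrank_range_add_finrank_ker (B.mulVecLin.domRestrict N)
  have h2 := LinearMap.finrank_range_add_finrank_ker B.mulVecLin
  have h3 : finrank F (LinearMap.ker (B.mulVecLin.domRestrict N)) =
      finrank F (LinearMap.ker B.mulVecLin) := by
    rw [LinearMap.ker_domRestrict, ← Submodule.finrank_map_subtype_eq,
      Submodule.map_comap_subtype, inf_eq_right.2 hle]
  have h4 : 2 ≤ finrank F (LinearMap.range (B.mulVecLin.domRestrict N)) := by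
    have h5 : Submodule.span F (Set.range g) ≤ LinearMap.range (B.mulVecLin.domRestrict N) := by
      refine Submodule.span_le.2 ?_
      have huN : u ∈ N := by
        rw [hmem, dot_mulVec_symm hB, dot_mulVec_symm hB, symm_dot hB v u]
        exact ⟨hu, huv⟩
      have hvN : v ∈ N := by
        rw [hmem, dot_mulVec_symm hB, dot_mulVec_symm hB]
        exact ⟨huv, hv⟩
      rintro _ ⟨i, rfl⟩
      fin_cases i
      · exact ⟨⟨u, huN⟩, rfl⟩
      · exact ⟨⟨v, hvN⟩, rfl⟩
    have h6 : finrank F (Submodule.span F (Set.range g)) = 2 := by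
      rw [finrank_span_eq_card hind, Fintype.card_fin]
    have h7 := Submodule.finrank_mono h5
    omega
  have h8 : B.rank = finrank F (LinearMap.range B.mulVecLin) := rfl
  have h9 : finrank F (Fin n → F) = n := by simp
  rw [h9] at h2
  rw [h3] at h1
  omega

end Rank

section Lorentz

variable {n : ℕ}

/-- A real symmetric matrix which is positive semidefinite on a hyperplane. -/
theorem wittLeOne_of_hyperplane (B : Matrix (Fin n) (Fin n) ℝ) (hB : B.IsSymm)
    (w : Fin n → ℝ) (hw : ∀ v : Fin n → ℝ, w ⬝ᵥ v = 0 → 0 ≤ v ⬝ᵥ (B *ᵥ v)) : WittLeOne B := by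
  classical
  intro u v hu hv huv hind
  -- an isotropic vector in the hyperplane is orthogonal to the hyperplane
  have hcs : ∀ x : Fin n → ℝ, w ⬝ᵥ x = 0 → x ⬝ᵥ (B *ᵥ x) = 0 → ∀ y : Fin n → ℝ, w ⬝ᵥ y = 0 →
      (B *ᵥ x) ⬝ᵥ y = 0 := by
    intro x hx hxx y hy
    have h1 : ∀ s : ℝ, 0 ≤ s * (2 * ((B *ᵥ x) ⬝ᵥ y)) + y ⬝ᵥ (B *ᵥ y) := by
      intro s
      have h2 := hw (s • x + y) (by rw [dotProduct_add, dotProduct_smul, hx, hy]; simp)
      rw [Matrix.mulVec_add, Matrix.mulVec_smul, add_dotProduct, dotProduct_add, dotProduct_add,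
        smul_dotProduct, smul_dotProduct, dotProduct_smul, dotProduct_smul, hxx,
        symm_dot hB y x] at h2
      rw [dot_mulVec_symm hB]
      simp only [smul_eq_mul, mul_zero, zero_add] at h2
      linarith
    by_contra hne
    have h3 := h1 (-(y ⬝ᵥ (B *ᵥ y) + 1) / (2 * ((B *ᵥ x) ⬝ᵥ y)))
    rw [div_mul_cancel₀ _ (mul_ne_zero two_ne_zero hne)] at h3
    linarith
  -- hence its image is a multiple of `w`
  have hmul : ∀ x : Fin n → ℝ, w ⬝ᵥ x = 0 → x ⬝ᵥ (B *ᵥ x) = 0 → ∃ c : ℝ, B *ᵥ x = c • w := by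
    intro x hx hxx
    by_cases hw0 : w = 0
    · refine ⟨0, ?_⟩
      rw [zero_smul]
      exact dotProduct_eq_zero _ fun y => hcs x hx hxx y (by rw [hw0, zero_dotProduct])
    · have hww : w ⬝ᵥ w ≠ 0 := fun h => hw0 (dotProduct_self_eq_zero.1 h)
      refine ⟨((B *ᵥ x) ⬝ᵥ w) / (w ⬝ᵥ w), ?_⟩
      have h4 : B *ᵥ x - (((B *ᵥ x) ⬝ᵥ w) / (w ⬝ᵥ w)) • w = 0 := by
        refine dotProduct_eq_zero _ fun y => ?_
        have h5 := hcs x hx hxx (y - ((w ⬝ᵥ y) / (w ⬝ᵥ w)) • w) (by
          rw [dotProduct_sub, dotProduct_smul, smul_eq_mul, div_mul_cancel₀ _ hww, sub_self])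
        rw [dotProduct_sub, dotProduct_smul, smul_eq_mul] at h5
        rw [sub_dotProduct, smul_dotProduct, smul_eq_mul]
        rw [sub_eq_zero] at h5 ⊢
        rw [h5]
        field_simp
      exact sub_eq_zero.1 h4
  rw [LinearIndependent.pair_iff] at hind
  -- if both vectors lie in the hyperplane
  have hboth : ¬ (w ⬝ᵥ u = 0 ∧ w ⬝ᵥ v = 0) := by
    rintro ⟨h1, h2⟩
    obtain ⟨a, ha⟩ := hmul u h1 hu
    obtain ⟨b, hb⟩ := hmul v h2 hv
    have h3 := hind b (-a) (by rw [ha, hb, smul_smul, smul_smul]; rw [← add_smul]; ring_nf; simp)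
    have ha0 : a = 0 := by linarith [h3.2]
    have h4 := hind 1 0 (by rw [ha, ha0]; simp)
    exact one_ne_zero h4.1
  set x : Fin n → ℝ := (w ⬝ᵥ v) • u + (-(w ⬝ᵥ u)) • v with hx
  have hwx : w ⬝ᵥ x = 0 := by
    rw [hx, dotProduct_add, dotProduct_smul, dotProduct_smul, smul_eq_mul, smul_eq_mul]
    ring
  have hBx : B *ᵥ x = (w ⬝ᵥ v) • (B *ᵥ u) + (-(w ⬝ᵥ u)) • (B *ᵥ v) := by
    rw [hx, Matrix.mulVec_add, Matrix.mulVec_smul, Matrix.mulVec_smul]
  have hvu : v ⬝ᵥ (B *ᵥ u) = 0 := by rw [symm_dot hB]; exact huv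
  have hux : u ⬝ᵥ (B *ᵥ x) = 0 := by
    rw [hBx, dotProduct_add, dotProduct_smul, dotProduct_smul, hu, huv]
    simp
  have hvx : v ⬝ᵥ (B *ᵥ x) = 0 := by
    rw [hBx, dotProduct_add, dotProduct_smul, dotProduct_smul, hv, hvu]
    simp
  have hxx : x ⬝ᵥ (B *ᵥ x) = 0 := by
    conv_lhs => rw [hx, add_dotProduct, smul_dotProduct, smul_dotProduct]
    rw [hux, hvx]
    simp
  obtain ⟨c, hc⟩ := hmul x hwx hxx
  by_cases hc0 : c = 0
  · rw [hc0, zero_smul, hBx] at hc
    have h5 := hind _ _ hc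
    exact hboth ⟨by linarith [h5.2], h5.1⟩
  · rw [hc, dotProduct_smul, smul_eq_mul, dotProduct_comm] at hux hvx
    exact hboth ⟨(mul_eq_zero.1 hux).resolve_left hc0, (mul_eq_zero.1 hvx).resolve_left hc0⟩

theorem wittLeOne_neg {F : Type} [Field F] (B : Matrix (Fin n) (Fin n) F) (h : WittLeOne B) :
    WittLeOne (-B) := by
  intro u v hu hv huv hind
  rw [Matrix.neg_mulVec, dotProduct_neg, neg_eq_zero] at hu hv huv
  refine h u v hu hv huv ?_
  rw [LinearIndependent.pair_iff] at hind ⊢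
  intro s t hst
  refine hind s t ?_
  rw [Matrix.neg_mulVec, Matrix.neg_mulVec, smul_neg, smul_neg, ← neg_add, hst, neg_zero]

end Lorentz

section Example

variable (F : Type) [Field F]

/-- Three symmetric matrices of rank at most four. -/
def five : Fin 3 → Matrix (Fin 5) (Fin 5) F :=
  ![!![0, 0, 1, 0, 0; 0, -2, 0, 0, 0; 1, 0, 0, 0, 0; 0, 0, 0, 0, 0; 0, 0, 0, 0, 0],
    !![0, 0, 0, 0, -1; 0, 0, 0, 1, 0; 0, 0, 0, 0, 0; 0, 1, 0, 0, 0; -1, 0, 0, 0, 0],
    !![0, 0, 0, 0, 0; 0, 0, 0, 0, 1; 0, 0, 0, -1, 0; 0, 0, -1, 0, 0; 0, 1, 0, 0, 0]]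

theorem five_zero (u : Fin 5 → F) : five F 0 *ᵥ u = ![u 2, -2 * u 1, u 0, 0, 0] := by
  funext a
  fin_cases a <;> simp [five, Matrix.mulVec, dotProduct, Fin.sum_univ_five]

theorem five_one (u : Fin 5 → F) : five F 1 *ᵥ u = ![-u 4, u 3, 0, u 1, -u 0] := by
  funext a
  fin_cases a <;> simp [five, Matrix.mulVec, dotProduct, Fin.sum_univ_five]

theorem five_two (u : Fin 5 → F) : five F 2 *ᵥ u = ![0, u 4, -u 3, -u 2, u 1] := by
  funext a
  fin_cases a <;> simp [five, Matrix.mulVec, dotProduct, Fin.sum_univ_five]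

theorem five_symm (i : Fin 3) : (five F i).IsSymm := by
  unfold Matrix.IsSymm
  ext a b
  fin_cases i <;> fin_cases a <;> fin_cases b <;> simp [five]

theorem rank_le_of_ker {m : ℕ} (B : Matrix (Fin (m + 1)) (Fin (m + 1)) F) (u : Fin (m + 1) → F)
    (hu : u ≠ 0) (h : B *ᵥ u = 0) : B.rank ≤ m := by
  have h1 := LinearMap.finrank_range_add_finrank_ker B.mulVecLin
  have h2 : 0 < finrank F (LinearMap.ker B.mulVecLin) := by
    rw [finrank_pos_iff]
    refine ⟨⟨⟨u, h⟩, 0, ?_⟩⟩
    intro h3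
    exact hu (congrArg Subtype.val h3)
  have h3 : finrank F (Fin (m + 1) → F) = m + 1 := by simp
  have h4 : B.rank = finrank F (LinearMap.range B.mulVecLin) := rfl
  rw [h3] at h1
  omega

theorem five_rank (i : Fin 3) : (five F i).rank ≤ 4 := by
  fin_cases i
  · refine rank_le_of_ker F (m := 4) _ ![0, 0, 0, 0, 1] ?_ ?_
    · intro h
      have := congrFun h 4
      simp at this
    · change five F 0 *ᵥ _ = 0
      rw [five_zero]
      funext a
      fin_cases a <;> simp
  · refine rank_le_of_ker F (m := 4) _ ![0, 0, 1, 0, 0] ?_ ?_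
    · intro h
      have := congrFun h 2
      simp at this
    · change five F 1 *ᵥ _ = 0
      rw [five_one]
      funext a
      fin_cases a <;> simp
  · refine rank_le_of_ker F (m := 4) _ ![1, 0, 0, 0, 0] ?_ ?_
    · intro h
      have := congrFun h 0
      simp at this
    · change five F 2 *ᵥ _ = 0
      rw [five_two]
      funext a
      fin_cases a <;> simp

/-- a kernel vector of the pencil -/
noncomputable def fiveKer : Fin 5 → MvPolynomial (Fin 3) F :=
  ![X 2 ^ 2, X 2 * X 1, X 1 ^ 2, X 2 * X 0, X 1 * X 0]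

theorem five_ker : pencil 0 (five F) *ᵥ fiveKer F = 0 := by
  unfold pencil
  rw [Fin.sum_univ_three]
  have h2 : (C (2 : F) : MvPolynomial (Fin 3) F) = 2 := map_ofNat C 2
  funext a
  fin_cases a <;>
  · simp [five, fiveKer, Matrix.mulVec, dotProduct, Fin.sum_univ_five, h2]
    try ring

theorem five_rank_pencil : (pencilL 0 (five F)).rank ≤ 4 := by
  refine rank_le_of_ker (RatFun (Fin 3) F) (m := 4) _ (toL (fiveKer F)) ?_ ?_
  · intro h
    have h1 : fiveKer F = 0 := by
      apply toL_inj (ι := Fin 3)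
      rw [h]
      funext a
      simp [toL]
    have h2 := congrFun h1 0
    simp [fiveKer] at h2
  · rw [pencilL, ← toL_mulVec, five_ker]
    funext a
    simp [toL]

theorem five_full (V Y : Submodule F (Fin 5 → F)) (h : ∀ i, ∀ u ∈ V, five F i *ᵥ u ∈ Y) :
    finrank F V ≤ finrank F Y := by
  classical
  -- the map `(u, w) ↦ (B₀ w - B₂ u, B₀ u - B₁ w)` is injective
  let f : (V × V) →ₗ[F] (Y × Y) :=
    { toFun := fun p => (⟨five F 0 *ᵥ p.2.1 - five F 2 *ᵥ p.1.1,
          Y.sub_mem (h 0 _ p.2.2) (h 2 _ p.1.2)⟩,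
        ⟨five F 0 *ᵥ p.1.1 - five F 1 *ᵥ p.2.1, Y.sub_mem (h 0 _ p.1.2) (h 1 _ p.2.2)⟩)
      map_add' := by
        rintro ⟨u, w⟩ ⟨u', w'⟩
        refine Prod.ext (Subtype.ext ?_) (Subtype.ext ?_)
        · simp only [Prod.mk_add_mk, Submodule.coe_add, Matrix.mulVec_add]
          abel
        · simp only [Prod.mk_add_mk, Submodule.coe_add, Matrix.mulVec_add]
          abel
      map_smul' := by
        rintro c ⟨u, w⟩
        refine Prod.ext (Subtype.ext ?_) (Subtype.ext ?_)
        · simp only [Prod.smul_mk, Submodule.coe_smul, Matrix.mulVec_smul, smul_sub,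
            RingHom.id_apply]
        · simp only [Prod.smul_mk, Submodule.coe_smul, Matrix.mulVec_smul, smul_sub,
            RingHom.id_apply] }
  have hf : Function.Injective f := by
    rw [injective_iff_map_eq_zero]
    rintro ⟨⟨u, hu⟩, ⟨w, hw⟩⟩ h0
    have h1 : five F 0 *ᵥ w - five F 2 *ᵥ u = 0 := congrArg (fun p => (p.1 : Fin 5 → F)) h0
    have h2 : five F 0 *ᵥ u - five F 1 *ᵥ w = 0 := congrArg (fun p => (p.2 : Fin 5 → F)) h0
    rw [five_zero, five_two] at h1
    rw [five_zero, five_one] at h2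
    have a0 := congrFun h1 0
    have a1 := congrFun h1 1
    have a2 := congrFun h1 2
    have a3 := congrFun h1 3
    have a4 := congrFun h1 4
    have b0 := congrFun h2 0
    have b1 := congrFun h2 1
    have b2 := congrFun h2 2
    have b3 := congrFun h2 3
    have b4 := congrFun h2 4
    simp at a0 a1 a2 a3 a4 b0 b1 b2 b3 b4
    have hu0 : u = 0 := by
      funext a
      fin_cases a <;> simp <;> grind
    have hw0 : w = 0 := by
      funext a
      fin_cases a <;> simp <;> grind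
    subst hu0 hw0
    rfl
  have h3 := LinearMap.finrank_le_finrank_of_injective hf
  rw [Module.finrank_prod, Module.finrank_prod] at h3
  omega

end Example

end Pool.Agent.V7L.Ed
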