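import Pool.Agent.V7L.Ed.Base

/-!
# Symmetric pencils whose coefficients have Witt index at most one

The images of the kernel under a coefficient of Witt index at most one lie on a constant line.
-/

set_option autoImplicit false
set_option linter.unusedSectionVars false

namespace Pool.Agent.V7L.Ed

open MvPolynomial Module Matrix

section Poly

variable {F : Type} [Field F]

/-- polynomial functions of one variable -/
def PF (f : F → F) : Prop := ∃ p : Polynomial F, ∀ t, f t = p.eval t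

theorem PF.const (c : F) : PF (fun _ : F => c) := ⟨Polynomial.C c, fun t => by simp⟩

theorem PF.mul {f g : F → F} (hf : PF f) (hg : PF g) : PF (fun t => f t * g t) := by
  obtain ⟨p, hp⟩ := hf
  obtain ⟨q, hq⟩ := hg
  exact ⟨p * q, fun t => by rw [Polynomial.eval_mul, ← hp, ← hq]⟩

theorem PF.add {f g : F → F} (hf : PF f) (hg : PF g) : PF (fun t => f t + g t) := by
  obtain ⟨p, hp⟩ := hf
  obtain ⟨q, hq⟩ := hg
  exact ⟨p + q, fun t => by rw [Polynomial.eval_add, ← hp, ← hq]⟩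

theorem PF.sub {f g : F → F} (hf : PF f) (hg : PF g) : PF (fun t => f t - g t) := by
  obtain ⟨p, hp⟩ := hf
  obtain ⟨q, hq⟩ := hg
  exact ⟨p - q, fun t => by rw [Polynomial.eval_sub, ← hp, ← hq]⟩

theorem PF.sum {κ : Type} (s : Finset κ) (f : κ → F → F) (hf : ∀ i ∈ s, PF (f i)) :
    PF (fun t => ∑ i ∈ s, f i t) := by
  classical
  induction s using Finset.induction_on with
  | empty => simpa using PF.const (0 : F)
  | insert a s ha ih =>
    have h1 := (hf a (Finset.mem_insert_self a s)).add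
      (ih fun i hi => hf i (Finset.mem_insert_of_mem hi))
    have h2 : (fun t => ∑ i ∈ insert a s, f i t) = fun t => f a t + ∑ i ∈ s, f i t := by
      funext t
      rw [Finset.sum_insert ha]
    rw [h2]
    exact h1

theorem PF.eval {ι : Type} (x v : ι → F) (p : MvPolynomial ι F) :
    PF (fun t => MvPolynomial.eval (x + t • v) p) := by
  refine ⟨MvPolynomial.eval₂ Polynomial.C (fun i => Polynomial.C (x i) + Polynomial.X *
    Polynomial.C (v i)) p, fun t => ?_⟩
  have h : (MvPolynomial.eval (x + t • v) : MvPolynomial ι F →+* F) =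
      (Polynomial.evalRingHom t).comp (MvPolynomial.eval₂Hom Polynomial.C
        (fun i => Polynomial.C (x i) + Polynomial.X * Polynomial.C (v i))) := by
    apply MvPolynomial.ringHom_ext
    · intro r
      simp
    · intro i
      simp only [eval_X, Pi.add_apply, Pi.smul_apply, smul_eq_mul, RingHom.comp_apply,
        coe_eval₂Hom, eval₂_X, Polynomial.coe_evalRingHom, Polynomial.eval_add, Polynomial.eval_mul,
        Polynomial.eval_C, Polynomial.eval_X]
  have h2 := congrArg (fun φ : MvPolynomial ι F →+* F => φ p) h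
  exact h2

variable [Infinite F]

theorem PF.zero_of {f : F → F} (hf : PF f) (h : ∀ t, t ≠ 0 → f t = 0) : ∀ t, f t = 0 := by
  obtain ⟨p, hp⟩ := hf
  have h0 : p = 0 := by
    apply Polynomial.eq_zero_of_infinite_isRoot
    refine Set.Infinite.mono (s := {t : F | t ≠ 0}) ?_ ?_
    · intro t ht
      have : p.eval t = 0 := by rw [← hp, h t ht]
      exact this
    · have : ({t : F | t ≠ 0}) = ({0} : Set F)ᶜ := by
        ext t; simp
      rw [this]
      exact (Set.finite_singleton (0 : F)).infinite_compl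
  intro t
  rw [hp, h0, Polynomial.eval_zero]

theorem PF.mul_zero {f g : F → F} (hf : PF f) (hg : PF g)
    (h : ∀ t, t ≠ 0 → f t * g t = 0) : (∀ t, f t = 0) ∨ ∀ t, g t = 0 := by
  have h1 := (hf.mul hg).zero_of h
  obtain ⟨p, hp⟩ := hf
  obtain ⟨q, hq⟩ := hg
  have h2 : p * q = 0 := by
    refine Polynomial.funext fun t => ?_
    rw [Polynomial.eval_mul, ← hp, ← hq, h1, Polynomial.eval_zero]
  rcases mul_eq_zero.1 h2 with h3 | h3
  · left
    intro t
    rw [hp, h3, Polynomial.eval_zero]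
  · right
    intro t
    rw [hq, h3, Polynomial.eval_zero]

end Poly

section Witt

variable {F : Type} [Field F] {n : ℕ} {ι : Type} [Fintype ι]

/-- The quadratic form `v ↦ vᵀ B v`, modulo its radical, has Witt index at most one: there are no
two vectors spanning a totally isotropic plane modulo the radical. -/
def WittLeOne (B : Matrix (Fin n) (Fin n) F) : Prop :=
  ∀ u v : Fin n → F, u ⬝ᵥ (B *ᵥ u) = 0 → v ⬝ᵥ (B *ᵥ v) = 0 → u ⬝ᵥ (B *ᵥ v) = 0 →
    ¬ LinearIndependent F ![B *ᵥ u, B *ᵥ v]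

/-- two proportional vectors -/
def Par (u v : Fin n → F) : Prop := ∀ s t, u s * v t = u t * v s

theorem Par.symm {u v : Fin n → F} (h : Par u v) : Par v u := by
  intro s t
  have := h t s
  linear_combination this

theorem Par.trans {u v w : Fin n → F} (h : Par u v) (h' : Par v w) (hv : v ≠ 0) : Par u w := by
  obtain ⟨r, hr⟩ : ∃ r, v r ≠ 0 := by
    by_contra hcon
    push Not at hcon
    exact hv (funext hcon)
  intro s t
  have h1 := h s r
  have h2 := h t r
  have h3 := h' s r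
  have h4 := h' t r
  have h5 := h s t
  have h6 := h' s t
  apply mul_left_cancel₀ (mul_ne_zero hr hr)
  linear_combination (v r * w t) * h1 - (v r * w s) * h2 - (v s * u r) * h4 + (v t * u r) * h3

theorem WittLeOne.par {B : Matrix (Fin n) (Fin n) F} (hB : WittLeOne B) {u v : Fin n → F}
    (h1 : u ⬝ᵥ (B *ᵥ u) = 0) (h2 : v ⬝ᵥ (B *ᵥ v) = 0) (h3 : u ⬝ᵥ (B *ᵥ v) = 0) :
    Par (B *ᵥ u) (B *ᵥ v) := by
  have h := hB u v h1 h2 h3
  rw [LinearIndependent.pair_iff] at h
  push Not at h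
  obtain ⟨α, β, h4, h5⟩ := h
  intro s t
  have hs := congrFun h4 s
  have ht := congrFun h4 t
  simp only [Pi.add_apply, Pi.smul_apply, smul_eq_mul, Pi.zero_apply] at hs ht
  by_cases hα : α = 0
  · have hβ : β ≠ 0 := h5 hα
    rw [hα, zero_mul, zero_add] at hs ht
    have hs' := (mul_eq_zero.1 hs).resolve_left hβ
    have ht' := (mul_eq_zero.1 ht).resolve_left hβ
    rw [hs', ht']
    ring
  · apply mul_left_cancel₀ hα
    linear_combination (B *ᵥ v) t * hs - (B *ᵥ v) s * ht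

/-- the value of a polynomial vector -/
noncomputable def vl (k : Fin n → MvPolynomial ι F) (c : ι → F) : Fin n → F :=
  fun a => eval c (k a)

theorem vl_mulVec (B : Matrix (Fin n) (Fin n) F) (k : Fin n → MvPolynomial ι F) (c : ι → F) :
    B *ᵥ vl k c = vl (B.map C *ᵥ k) c := by
  funext a
  exact (eval_mulVec B k c a).symm

theorem ker_eval (A₀ : Matrix (Fin n) (Fin n) F) (A : ι → Matrix (Fin n) (Fin n) F)
    (k : Fin n → MvPolynomial ι F) (hk : pencil A₀ A *ᵥ k = 0) (c : ι → F) :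
    A₀ *ᵥ vl k c + ∑ i, c i • (A i *ᵥ vl k c) = 0 := by
  funext a
  have h := congrArg (eval c) (congrFun hk a)
  simp only [pencil, Matrix.add_mulVec, Matrix.sum_mulVec, Matrix.smul_mulVec, Pi.add_apply,
    Finset.sum_apply, Pi.smul_apply, smul_eq_mul, map_add, map_sum, map_mul, eval_X,
    Pi.zero_apply, map_zero] at h
  simp only [Pi.add_apply, Finset.sum_apply, Pi.smul_apply, smul_eq_mul, Pi.zero_apply, vl_mulVec]
  simpa [vl] using h

theorem two_point (A₀ : Matrix (Fin n) (Fin n) F) (A : ι → Matrix (Fin n) (Fin n) F)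
    (h₀ : A₀.IsSymm) (hs : ∀ i, (A i).IsSymm) (k k' : Fin n → MvPolynomial ι F)
    (hk : pencil A₀ A *ᵥ k = 0) (hk' : pencil A₀ A *ᵥ k' = 0) (c c' : ι → F) :
    ∑ i, (c i - c' i) * (vl k' c' ⬝ᵥ (A i *ᵥ vl k c)) = 0 := by
  have h1 := congrArg (fun w => vl k' c' ⬝ᵥ w) (ker_eval A₀ A k hk c)
  have h2 := congrArg (fun w => vl k c ⬝ᵥ w) (ker_eval A₀ A k' hk' c')
  simp only [dotProduct_add, dotProduct_sum, dotProduct_smul, dotProduct_zero, smul_eq_mul] at h1 h2
  rw [symm_dot h₀] at h2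
  have h3 : ∀ i, vl k c ⬝ᵥ (A i *ᵥ vl k' c') = vl k' c' ⬝ᵥ (A i *ᵥ vl k c) :=
    fun i => symm_dot (hs i) _ _
  simp only [h3] at h2
  simp only [sub_mul, Finset.sum_sub_distrib]
  linear_combination h1 - h2

theorem two_point_pair [DecidableEq ι] (A₀ : Matrix (Fin n) (Fin n) F)
    (A : ι → Matrix (Fin n) (Fin n) F)
    (h₀ : A₀.IsSymm) (hs : ∀ i, (A i).IsSymm) (k : Fin n → MvPolynomial ι F)
    (hk : pencil A₀ A *ᵥ k = 0) (c : ι → F) (j l : ι) (s t : F) :
    s * (vl k (c + s • Pi.single j 1 + t • Pi.single l 1) ⬝ᵥ (A j *ᵥ vl k c)) +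
      t * (vl k (c + s • Pi.single j 1 + t • Pi.single l 1) ⬝ᵥ (A l *ᵥ vl k c)) = 0 := by
  have h := two_point A₀ A h₀ hs k k hk hk c (c + s • Pi.single j 1 + t • Pi.single l 1)
  have h2 : ∀ i, (c i - (c + s • Pi.single j 1 + t • Pi.single l 1 : ι → F) i) =
      -(if i = j then s else 0) - (if i = l then t else 0) := by
    intro i
    simp only [Pi.add_apply, Pi.smul_apply, smul_eq_mul, Pi.single_apply, mul_ite, mul_one, mul_zero]
    split_ifs <;> ring
  simp only [h2, sub_mul, neg_mul, ite_mul, zero_mul, Finset.sum_sub_distrib,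
    Finset.sum_neg_distrib, Finset.sum_ite_eq', Finset.mem_univ, if_true] at h
  linear_combination -h

theorem iso_eval (A₀ : Matrix (Fin n) (Fin n) F) (A : ι → Matrix (Fin n) (Fin n) F)
    (h₀ : A₀.IsSymm) (hs : ∀ i, (A i).IsSymm) (i : ι) (k k' : Fin n → MvPolynomial ι F)
    (hk : pencil A₀ A *ᵥ k = 0) (hk' : pencil A₀ A *ᵥ k' = 0) (c : ι → F) :
    vl k c ⬝ᵥ (A i *ᵥ vl k' c) = 0 := by
  have h1 := congrArg (eval c) (isotropic A₀ A h₀ hs i k k' hk hk')
  rw [dotProduct, map_sum, map_zero] at h1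
  rw [dotProduct, ← h1]
  refine Finset.sum_congr rfl fun a _ => ?_
  rw [map_mul, eval_mulVec]
  rfl

variable [DecidableEq ι]

theorem par_dir (A₀ : Matrix (Fin n) (Fin n) F) (A : ι → Matrix (Fin n) (Fin n) F)
    (h₀ : A₀.IsSymm) (hs : ∀ i, (A i).IsSymm) (hW : ∀ i, WittLeOne (A i))
    (k : Fin n → MvPolynomial ι F) (hk : pencil A₀ A *ᵥ k = 0) (i : ι) (c : ι → F) (s : F) :
    Par (A i *ᵥ vl k c) (A i *ᵥ vl k (c + s • Pi.single i 1)) := by
  have hiso := fun x => iso_eval A₀ A h₀ hs i k k hk hk x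
  refine (hW i).par (hiso _) (hiso _) ?_
  rw [symm_dot (hs i)]
  by_cases h : s = 0
  · rw [h, zero_smul, add_zero]
    exact hiso c
  · have h1 := two_point_pair A₀ A h₀ hs k hk c i i s 0
    rw [zero_mul, add_zero, zero_smul, add_zero] at h1
    exact (mul_eq_zero.1 h1).resolve_left h

/-- The main functional equation argument. -/
theorem pair_aux [Infinite F] (h2 : (2 : F) ≠ 0) (A₀ : Matrix (Fin n) (Fin n) F)
    (A : ι → Matrix (Fin n) (Fin n) F)
    (h₀ : A₀.IsSymm) (hs : ∀ i, (A i).IsSymm) (hW : ∀ i, WittLeOne (A i))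
    (k : Fin n → MvPolynomial ι F) (hk : pencil A₀ A *ᵥ k = 0) (j l : ι) (c : ι → F) (t : F)
    (ht : t ≠ 0) (σ τ : Fin n)
    (h1 : (A j *ᵥ vl k c) σ ≠ 0) (h3 : (A l *ᵥ vl k c) τ ≠ 0)
    (h4 : (A j *ᵥ vl k (c + t • Pi.single l 1)) σ ≠ 0)
    (h5 : (A l *ᵥ vl k (c + t • Pi.single l 1)) τ ≠ 0) :
    vl k (c + t • Pi.single l 1) ⬝ᵥ (A j *ᵥ vl k c) = 0 := by
  classical
  set q : F → ι → F := fun s => (c + t • Pi.single l 1) + s • Pi.single j 1 with hq
  set p' : F → ι → F := fun s => c + s • Pi.single j 1 with hp'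
  set q' : ι → F := c + t • Pi.single l 1 with hq'
  have hqeq : ∀ s, q s = c + s • Pi.single j 1 + t • Pi.single l 1 := by
    intro s
    simp only [hq, hq']
    abel
  have hPFq : ∀ f : MvPolynomial ι F, PF (fun s => eval (q s) f) := fun f => PF.eval _ _ f
  have hPFp : ∀ f : MvPolynomial ι F, PF (fun s => eval (p' s) f) := fun f => PF.eval _ _ f
  -- the pairings
  have hP : PF (fun s => vl k (q s) ⬝ᵥ (A j *ᵥ vl k c)) := by
    unfold dotProduct
    exact PF.sum _ _ fun a _ => (hPFq (k a)).mul (PF.const _)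
  have hQ : PF (fun s => vl k (q s) ⬝ᵥ (A l *ᵥ vl k c)) := by
    unfold dotProduct
    exact PF.sum _ _ fun a _ => (hPFq (k a)).mul (PF.const _)
  have hcq : ∀ i (r : Fin n), PF (fun s => (A i *ᵥ vl k (q s)) r) := by
    intro i r
    have := hPFq (((A i).map C *ᵥ k) r)
    refine (congrArg PF ?_).mp this
    funext s
    exact eval_mulVec (A i) k (q s) r
  have hcp : ∀ i (r : Fin n), PF (fun s => (A i *ᵥ vl k (p' s)) r) := by
    intro i r
    have := hPFp (((A i).map C *ᵥ k) r)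
    refine (congrArg PF ?_).mp this
    funext s
    exact eval_mulVec (A i) k (p' s) r
  have hR : PF (fun s => ((A j *ᵥ vl k c) σ * (A l *ᵥ vl k q') τ) *
      ((A j *ᵥ vl k (q s)) σ * (A l *ᵥ vl k (p' s)) τ) +
      ((A j *ᵥ vl k q') σ * (A l *ᵥ vl k c) τ) *
      ((A j *ᵥ vl k (p' s)) σ * (A l *ᵥ vl k (q s)) τ)) :=
    ((PF.const _).mul ((hcq j σ).mul (hcp l τ))).add
      ((PF.const _).mul ((hcp j σ).mul (hcq l τ)))
  -- scaling relations between parallel vectors
  have hscale : ∀ {u v : Fin n → F} (r : Fin n), Par u v → ∀ w : Fin n → F,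
      v r * (w ⬝ᵥ u) = u r * (w ⬝ᵥ v) := by
    intro u v r h w
    unfold dotProduct
    rw [Finset.mul_sum, Finset.mul_sum]
    refine Finset.sum_congr rfl fun a _ => ?_
    have := h r a
    linear_combination -(w a) * this
  have key : ∀ s, s ≠ 0 → ((vl k (q s) ⬝ᵥ (A j *ᵥ vl k c)) * (vl k (q s) ⬝ᵥ (A l *ᵥ vl k c))) *
      (((A j *ᵥ vl k c) σ * (A l *ᵥ vl k q') τ) *
      ((A j *ᵥ vl k (q s)) σ * (A l *ᵥ vl k (p' s)) τ) +
      ((A j *ᵥ vl k q') σ * (A l *ᵥ vl k c) τ) *
      ((A j *ᵥ vl k (p' s)) σ * (A l *ᵥ vl k (q s)) τ)) = 0 := by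
    intro s hs0
    have e1 := two_point_pair A₀ A h₀ hs k hk c j l s t
    rw [← hqeq s] at e1
    -- second pair of points: from `p' s` to `q'`
    have e2 := two_point_pair A₀ A h₀ hs k hk (p' s) j l (-s) t
    have hpt : p' s + (-s) • Pi.single j 1 + t • Pi.single l 1 = q' := by
      simp only [hp', hq', neg_smul]
      abel
    rw [hpt] at e2
    -- parallel vectors
    have a1 : Par (A j *ᵥ vl k c) (A j *ᵥ vl k (p' s)) := par_dir A₀ A h₀ hs hW k hk j c s
    have a2 : Par (A j *ᵥ vl k q') (A j *ᵥ vl k (q s)) := par_dir A₀ A h₀ hs hW k hk j q' s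
    have a3 : Par (A l *ᵥ vl k c) (A l *ᵥ vl k q') := par_dir A₀ A h₀ hs hW k hk l c t
    have a4 : Par (A l *ᵥ vl k (p' s)) (A l *ᵥ vl k (q s)) := by
      have := par_dir A₀ A h₀ hs hW k hk l (p' s) t
      rw [hqeq s]
      exact this
    set gj := vl k (q s) ⬝ᵥ (A j *ᵥ vl k c) with hgj
    set gl := vl k (q s) ⬝ᵥ (A l *ᵥ vl k c) with hgl
    set gj' := vl k q' ⬝ᵥ (A j *ᵥ vl k (p' s)) with hgj'
    set gl' := vl k q' ⬝ᵥ (A l *ᵥ vl k (p' s)) with hgl'
    -- `c_j(p) c_j(q) g_j' = c_j(p') c_j(q') g_j`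
    have b1 : (A j *ᵥ vl k c) σ * (A j *ᵥ vl k (q s)) σ * gj' =
        (A j *ᵥ vl k (p' s)) σ * (A j *ᵥ vl k q') σ * gj := by
      have u1 := hscale σ a1 (vl k q')
      have u2 := hscale σ a2 (vl k c)
      rw [symm_dot (hs j) (vl k c) (vl k q'), symm_dot (hs j) (vl k c) (vl k (q s))] at u2
      rw [hgj', hgj]
      linear_combination (-(A j *ᵥ vl k (q s)) σ) * u1 + ((A j *ᵥ vl k (p' s)) σ) * u2
    have b2 : (A l *ᵥ vl k c) τ * (A l *ᵥ vl k (q s)) τ * gl' =
        (A l *ᵥ vl k (p' s)) τ * (A l *ᵥ vl k q') τ * gl := by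
      have u1 := hscale τ a4 (vl k q')
      have u2 := hscale τ a3 (vl k (q s))
      rw [symm_dot (hs l) (vl k q') (vl k (q s))] at u1
      rw [hgl', hgl]
      linear_combination ((A l *ᵥ vl k c) τ) * u1 - ((A l *ᵥ vl k (p' s)) τ) * u2
    have b3 : gj * gl' + gj' * gl = 0 := by
      apply mul_left_cancel₀ (mul_ne_zero hs0 ht)
      linear_combination (t * gl') * e1 - (t * gl) * e2
    linear_combination (gl * ((A l *ᵥ vl k c) τ * (A l *ᵥ vl k (q s)) τ)) * b1 * (-1) +
      ((A j *ᵥ vl k c) σ * (A j *ᵥ vl k (q s)) σ * ((A l *ᵥ vl k c) τ * (A l *ᵥ vl k (q s)) τ)) * b3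
      - (gj * ((A j *ᵥ vl k c) σ * (A j *ᵥ vl k (q s)) σ)) * b2
  have hq0 : q 0 = q' := by simp only [hq, zero_smul, add_zero]
  have hp0 : p' 0 = c := by simp only [hp', zero_smul, add_zero]
  rcases PF.mul_zero (hP.mul hQ) hR key with h | h
  · have h' : ∀ s, vl k (q s) ⬝ᵥ (A j *ᵥ vl k c) = 0 := by
      rcases PF.mul_zero hP hQ (fun s _ => h s) with h6 | h6
      · exact h6
      · refine PF.zero_of hP fun s hs0 => ?_
        have e1 := two_point_pair A₀ A h₀ hs k hk c j l s t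
        rw [← hqeq s, h6 s, mul_zero, add_zero] at e1
        exact (mul_eq_zero.1 e1).resolve_left hs0
    have := h' 0
    rwa [hq0] at this
  · exfalso
    have := h 0
    simp only [hq0, hp0] at this
    have h6 : 2 * ((A j *ᵥ vl k c) σ * (A l *ᵥ vl k c) τ * ((A j *ᵥ vl k q') σ *
        (A l *ᵥ vl k q') τ)) = 0 := by
      linear_combination this
    exact mul_ne_zero h2 (mul_ne_zero (mul_ne_zero h1 h3) (mul_ne_zero h4 h5)) h6

theorem Par.refl (u : Fin n → F) : Par u u := fun _ _ => mul_comm _ _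

theorem pair_par [Infinite F] (h2 : (2 : F) ≠ 0) (A₀ : Matrix (Fin n) (Fin n) F)
    (A : ι → Matrix (Fin n) (Fin n) F)
    (h₀ : A₀.IsSymm) (hs : ∀ i, (A i).IsSymm) (hW : ∀ i, WittLeOne (A i))
    (k : Fin n → MvPolynomial ι F) (hk : pencil A₀ A *ᵥ k = 0) (j l : ι) (c : ι → F)
    (σ τ : Fin n) (h1 : (A j *ᵥ vl k c) σ ≠ 0)
    (h3 : (∀ x, A l *ᵥ vl k x = 0) ∨ (A l *ᵥ vl k c) τ ≠ 0) (t : F) :
    Par (A j *ᵥ vl k c) (A j *ᵥ vl k (c + t • Pi.single l 1)) := by
  classical
  have hiso := fun x => iso_eval A₀ A h₀ hs j k k hk hk x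
  rcases h3 with h3 | h3
  · have hP : PF (fun s => vl k ((c + t • Pi.single l 1) + s • Pi.single j 1) ⬝ᵥ
        (A j *ᵥ vl k c)) := by
      unfold dotProduct
      exact PF.sum _ _ fun a _ => (PF.eval _ _ (k a)).mul (PF.const _)
    have h4 := PF.zero_of hP fun s hs0 => by
      have e1 := two_point_pair A₀ A h₀ hs k hk c j l s t
      rw [h3 c, dotProduct_zero, mul_zero, add_zero] at e1
      have h5 := (mul_eq_zero.1 e1).resolve_left hs0
      rw [add_right_comm]
      exact h5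
    have h5 := h4 0
    simp only [zero_smul, add_zero] at h5
    refine (hW j).par (hiso _) (hiso _) ?_
    rw [symm_dot (hs j)]
    exact h5
  · intro r r'
    have hPF : ∀ i (b : Fin n), PF (fun t => (A i *ᵥ vl k (c + t • Pi.single l 1)) b) := by
      intro i b
      have := PF.eval c (Pi.single l 1) (((A i).map C *ᵥ k) b)
      refine (congrArg PF ?_).mp this
      funext s
      exact eval_mulVec (A i) k (c + s • Pi.single l 1) b
    have hD : PF (fun t => (A j *ᵥ vl k c) r * (A j *ᵥ vl k (c + t • Pi.single l 1)) r' -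
        (A j *ᵥ vl k c) r' * (A j *ᵥ vl k (c + t • Pi.single l 1)) r) :=
      ((PF.const _).mul (hPF j r')).sub ((PF.const _).mul (hPF j r))
    have hC : PF (fun t => (A j *ᵥ vl k (c + t • Pi.single l 1)) σ *
        (A l *ᵥ vl k (c + t • Pi.single l 1)) τ) := (hPF j σ).mul (hPF l τ)
    rcases PF.mul_zero hC hD (fun t ht => by
      by_cases h4 : (A j *ᵥ vl k (c + t • Pi.single l 1)) σ = 0
      · rw [h4]; ring
      by_cases h5 : (A l *ᵥ vl k (c + t • Pi.single l 1)) τ = 0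
      · rw [h5]; ring
      have h6 := pair_aux h2 A₀ A h₀ hs hW k hk j l c t ht σ τ h1 h3 h4 h5
      have h7 : Par (A j *ᵥ vl k c) (A j *ᵥ vl k (c + t • Pi.single l 1)) := by
        refine (hW j).par (hiso _) (hiso _) ?_
        rw [symm_dot (hs j)]
        exact h6
      have h8 := h7 r r'
      rw [h8]; ring) with h | h
    · exfalso
      have := h 0
      simp only [zero_smul, add_zero] at this
      exact mul_ne_zero h1 h3 this
    · exact sub_eq_zero.1 (h t)

/-- The values of the image of a kernel vector under a coefficient lie on one line. -/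
theorem line_all [Infinite F] (h2 : (2 : F) ≠ 0) (A₀ : Matrix (Fin n) (Fin n) F)
    (A : ι → Matrix (Fin n) (Fin n) F)
    (h₀ : A₀.IsSymm) (hs : ∀ i, (A i).IsSymm) (hW : ∀ i, WittLeOne (A i))
    (k : Fin n → MvPolynomial ι F) (hk : pencil A₀ A *ᵥ k = 0) (j : ι) (x₀ : ι → F)
    (σ : Fin n) (h1 : (A j *ᵥ vl k x₀) σ ≠ 0)
    (h3 : ∀ l, (∀ x, A l *ᵥ vl k x = 0) ∨ ∃ τ, (A l *ᵥ vl k x₀) τ ≠ 0) (S : Finset ι) :
    ∀ y : ι → F, (∀ i, i ∉ S → y i = x₀ i) → Par (A j *ᵥ vl k x₀) (A j *ᵥ vl k y) := by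
  classical
  induction S using Finset.induction_on with
  | empty =>
    intro y hy
    have : y = x₀ := funext fun i => hy i (Finset.notMem_empty i)
    rw [this]
    exact Par.refl _
  | insert l S hl ih =>
    intro y hy
    set y₀ : ι → F := Function.update y l (x₀ l) with hy₀
    set t : F := y l - x₀ l with ht
    have hy1 : y = y₀ + t • Pi.single l 1 := by
      funext i
      by_cases hi : i = l
      · subst hi
        simp [hy₀, ht]
      · simp [hy₀, Function.update_of_ne hi, Pi.single_eq_of_ne hi]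
    have hy2 : ∀ i, i ∉ S → y₀ i = x₀ i := by
      intro i hi
      by_cases hil : i = l
      · subst hil
        simp [hy₀]
      · rw [hy₀, Function.update_of_ne hil]
        exact hy i (by simp [hil, hi])
    set z : F → ι → F := fun s => x₀ + s • (y₀ - x₀) with hz
    have hz1 : ∀ s, Par (A j *ᵥ vl k x₀) (A j *ᵥ vl k (z s)) := by
      intro s
      refine ih (z s) fun i hi => ?_
      simp [hz, hy2 i hi]
    obtain ⟨τ, hτ⟩ : ∃ τ : Fin n, (∀ x, A l *ᵥ vl k x = 0) ∨ (A l *ᵥ vl k x₀) τ ≠ 0 := by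
      rcases h3 l with h | ⟨τ, h⟩
      · exact ⟨σ, Or.inl h⟩
      · exact ⟨τ, Or.inr h⟩
    have hPF : ∀ i (b : Fin n), PF (fun s => (A i *ᵥ vl k (z s)) b) := by
      intro i b
      have := PF.eval x₀ (y₀ - x₀) (((A i).map C *ᵥ k) b)
      refine (congrArg PF ?_).mp this
      funext s
      exact eval_mulVec (A i) k (z s) b
    have hPF' : ∀ i (b : Fin n), PF (fun s => (A i *ᵥ vl k (z s + t • Pi.single l 1)) b) := by
      intro i b
      have := PF.eval (x₀ + t • Pi.single l 1) (y₀ - x₀) (((A i).map C *ᵥ k) b)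
      refine (congrArg PF ?_).mp this
      funext s
      have h5 : x₀ + t • Pi.single l 1 + s • (y₀ - x₀) = z s + t • Pi.single l 1 := by
        simp only [hz]
        exact add_right_comm _ _ _
      rw [h5]
      exact eval_mulVec (A i) k (z s + t • Pi.single l 1) b
    have hz0 : z 0 = x₀ := by simp [hz]
    have hz2 : z 1 = y₀ := by simp [hz]
    intro r r'
    have hD : PF (fun s => (A j *ᵥ vl k x₀) r * (A j *ᵥ vl k (z s + t • Pi.single l 1)) r' -
        (A j *ᵥ vl k x₀) r' * (A j *ᵥ vl k (z s + t • Pi.single l 1)) r) :=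
      ((PF.const _).mul (hPF' j r')).sub ((PF.const _).mul (hPF' j r))
    have hne : ∀ s, (A j *ᵥ vl k (z s)) σ ≠ 0 →
        ((∀ x, A l *ᵥ vl k x = 0) ∨ (A l *ᵥ vl k (z s)) τ ≠ 0) →
        (A j *ᵥ vl k x₀) r * (A j *ᵥ vl k (z s + t • Pi.single l 1)) r' -
        (A j *ᵥ vl k x₀) r' * (A j *ᵥ vl k (z s + t • Pi.single l 1)) r = 0 := by
      intro s h4 h5
      have h6 := pair_par h2 A₀ A h₀ hs hW k hk j l (z s) σ τ h4 h5 t
      have h7 := (hz1 s).trans h6 (fun h => h4 (by rw [h]; rfl))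
      exact sub_eq_zero.2 (h7 r r')
    have hfin : ∀ s, (A j *ᵥ vl k x₀) r * (A j *ᵥ vl k (z s + t • Pi.single l 1)) r' -
        (A j *ᵥ vl k x₀) r' * (A j *ᵥ vl k (z s + t • Pi.single l 1)) r = 0 := by
      rcases hτ with hτ | hτ
      · rcases PF.mul_zero (hPF j σ) hD (fun s _ => by
          by_cases h4 : (A j *ᵥ vl k (z s)) σ = 0
          · rw [h4, zero_mul]
          · rw [hne s h4 (Or.inl hτ), mul_zero]) with h | h
        · have := h 0
          rw [hz0] at this
          exact absurd this h1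
        · exact h
      · rcases PF.mul_zero ((hPF j σ).mul (hPF l τ)) hD (fun s _ => by
          by_cases h4 : (A j *ᵥ vl k (z s)) σ = 0
          · rw [h4]; ring
          by_cases h5 : (A l *ᵥ vl k (z s)) τ = 0
          · rw [h5]; ring
          · rw [hne s h4 (Or.inr h5), mul_zero]) with h | h
        · have := h 0
          rw [hz0] at this
          exact absurd this (mul_ne_zero h1 hτ)
        · exact h
    have h8 := hfin 1
    rw [hz2, ← hy1] at h8
    exact sub_eq_zero.1 h8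

/-- The direction of a single coefficient matrix. -/
theorem direction [Infinite F] (h2 : (2 : F) ≠ 0) (A₀ : Matrix (Fin n) (Fin n) F)
    (A : ι → Matrix (Fin n) (Fin n) F)
    (h₀ : A₀.IsSymm) (hs : ∀ i, (A i).IsSymm) (hW : ∀ i, WittLeOne (A i)) (l : ι) :
    ∃ v : Fin n → F, v ⬝ᵥ (A l *ᵥ v) = 0 ∧ emb (RatFun ι F) (A l *ᵥ v) ∈ img A₀ A ∧
      ∀ u ∈ hull A₀ A, A l *ᵥ u ∈ Submodule.span F {A l *ᵥ v} := by
  classical
  by_cases hz : ∀ k : Fin n → MvPolynomial ι F, pencil A₀ A *ᵥ k = 0 → (A l).map C *ᵥ k = 0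
  · refine ⟨0, by simp, ?_, ?_⟩
    · have : emb (RatFun ι F) (A l *ᵥ (0 : Fin n → F)) = 0 := by
        funext a
        simp [emb]
      rw [this]
      exact Submodule.zero_mem _
    · intro u hu
      have h1 : A l *ᵥ u = 0 := by
        funext a
        refine hu (A l a) fun k hk => ?_
        have := congrFun (hz k hk) a
        simpa [Matrix.mulVec, dotProduct] using this
      rw [h1]
      exact Submodule.zero_mem _
  push Not at hz
  obtain ⟨k₀, hk₀, hne⟩ := hz
  obtain ⟨j, hj⟩ : ∃ j, ((A l).map C *ᵥ k₀) j ≠ 0 := by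
    by_contra h
    push Not at h
    exact hne (funext h)
  -- a point at which nothing vanishes
  have hτ : ∀ i, ∃ g : MvPolynomial ι F, g ≠ 0 ∧ ((∀ x, A i *ᵥ vl k₀ x = 0) ∨
      ∃ τ, g = ((A i).map C *ᵥ k₀) τ) := by
    intro i
    by_cases h : (A i).map C *ᵥ k₀ = 0
    · refine ⟨1, one_ne_zero, Or.inl fun x => ?_⟩
      rw [vl_mulVec, h]
      funext a
      simp [vl]
    · obtain ⟨τ, hτ⟩ : ∃ τ, ((A i).map C *ᵥ k₀) τ ≠ 0 := by
        by_contra h'
        push Not at h'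
        exact h (funext h')
      exact ⟨_, hτ, Or.inr ⟨τ, rfl⟩⟩
  choose g hg0 hg using hτ
  have hG : ((A l).map C *ᵥ k₀) j * ∏ i, g i ≠ 0 :=
    mul_ne_zero hj (Finset.prod_ne_zero_iff.2 fun i _ => hg0 i)
  obtain ⟨c₀, hc₀⟩ : ∃ c : ι → F, eval c (((A l).map C *ᵥ k₀) j * ∏ i, g i) ≠ 0 := by
    by_contra h
    push Not at h
    exact hG (MvPolynomial.funext fun c => by rw [h c, map_zero])
  rw [map_mul, map_prod] at hc₀
  have hcj : eval c₀ (((A l).map C *ᵥ k₀) j) ≠ 0 := left_ne_zero_of_mul hc₀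
  have hcg : ∀ i, eval c₀ (g i) ≠ 0 := fun i =>
    Finset.prod_ne_zero_iff.1 (right_ne_zero_of_mul hc₀) i (Finset.mem_univ i)
  set q₀ : Fin n → F := vl k₀ c₀ with hq₀
  have hw : (A l *ᵥ q₀) j ≠ 0 := by rwa [eval_mulVec] at hcj
  have hiso := fun x => iso_eval A₀ A h₀ hs l k₀ k₀ hk₀ hk₀ x
  have hiso₀ : q₀ ⬝ᵥ (A l *ᵥ q₀) = 0 := hiso c₀
  have hlin : ∀ c, Par (A l *ᵥ q₀) (A l *ᵥ vl k₀ c) := by
    intro c
    refine line_all h2 A₀ A h₀ hs hW k₀ hk₀ l c₀ j hw (fun i => ?_) Finset.univ c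
      (fun i hi => absurd (Finset.mem_univ i) hi)
    rcases hg i with h | ⟨τ, h⟩
    · exact Or.inl h
    · right
      refine ⟨τ, ?_⟩
      have := hcg i
      rw [h, eval_mulVec] at this
      exact this
  -- proportionality
  have hprop : ∀ k : Fin n → MvPolynomial ι F, pencil A₀ A *ᵥ k = 0 → ∀ a,
      C ((A l *ᵥ q₀) j) * ((A l).map C *ᵥ k) a = C ((A l *ᵥ q₀) a) * ((A l).map C *ᵥ k) j := by
    intro k hk a
    have h5 : ((A l).map C *ᵥ k₀) j * (C ((A l *ᵥ q₀) j) * ((A l).map C *ᵥ k) a -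
        C ((A l *ᵥ q₀) a) * ((A l).map C *ᵥ k) j) = 0 := by
      refine MvPolynomial.funext fun c => ?_
      rw [map_mul, map_sub, map_mul, map_mul, map_zero, eval_C, eval_C, eval_mulVec, eval_mulVec,
        eval_mulVec]
      change (A l *ᵥ vl k₀ c) j * ((A l *ᵥ q₀) j * (A l *ᵥ vl k c) a -
        (A l *ᵥ q₀) a * (A l *ᵥ vl k c) j) = 0
      by_cases h6 : (A l *ᵥ vl k₀ c) j = 0
      · rw [h6, zero_mul]
      · have h7 : Par (A l *ᵥ vl k₀ c) (A l *ᵥ vl k c) :=
          (hW l).par (hiso c) (iso_eval A₀ A h₀ hs l k k hk hk c)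
            (iso_eval A₀ A h₀ hs l k₀ k hk₀ hk c)
        have h8 := (hlin c).trans h7 (fun h => h6 (by rw [h]; rfl))
        rw [h8 j a]
        ring
    exact sub_eq_zero.1 ((mul_eq_zero.1 h5).resolve_left hj)
  refine ⟨q₀, hiso₀, ?_, ?_⟩
  · have h1 := coeff_mem_img A₀ A l k₀ hk₀
    have hne1 : algebraMap (MvPolynomial ι F) (RatFun ι F) (((A l).map C *ᵥ k₀) j) ≠ 0 := by
      intro h
      rw [← map_zero (algebraMap (MvPolynomial ι F) (RatFun ι F))] at h
      exact hj (IsFractionRing.injective (MvPolynomial ι F) (RatFun ι F) h)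
    have h2 : emb (RatFun ι F) (A l *ᵥ q₀) =
        (algebraMap (MvPolynomial ι F) (RatFun ι F) (((A l).map C *ᵥ k₀) j))⁻¹ •
        (algebraMap (MvPolynomial ι F) (RatFun ι F) (C ((A l *ᵥ q₀) j)) •
          toL ((A l).map C *ᵥ k₀)) := by
      funext a
      rw [← toL_C]
      simp only [toL, Pi.smul_apply, smul_eq_mul]
      rw [eq_inv_mul_iff_mul_eq₀ hne1, ← map_mul, ← map_mul, hprop k₀ hk₀ a]
      congr 1
      ring
    rw [h2]
    exact Submodule.smul_mem _ _ (Submodule.smul_mem _ _ h1)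
  · intro u hu
    have h1 : ∀ a, (A l *ᵥ q₀) j * (A l *ᵥ u) a = (A l *ᵥ q₀) a * (A l *ᵥ u) j := by
      intro a
      have h2 : ((A l *ᵥ q₀) j • A l a - (A l *ᵥ q₀) a • A l j) ∈ rel A₀ A := by
        intro k hk
        have h3 := hprop k hk a
        simp only [Matrix.mulVec, dotProduct, Matrix.map_apply] at h3
        simp only [Pi.sub_apply, Pi.smul_apply, smul_eq_mul, map_sub, map_mul, sub_mul,
          Finset.sum_sub_distrib, mul_assoc, ← Finset.mul_sum]
        rw [sub_eq_zero]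
        exact h3
      have h4 := hu _ h2
      rw [sub_dotProduct, smul_dotProduct, smul_dotProduct, sub_eq_zero] at h4
      exact h4
    refine Submodule.mem_span_singleton.2 ⟨(A l *ᵥ u) j / (A l *ᵥ q₀) j, ?_⟩
    funext a
    rw [Pi.smul_apply, smul_eq_mul]
    field_simp
    rw [mul_comm, ← h1 a, mul_comm]

end Witt

end Pool.Agent.V7L.Ed
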